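import Pool.Agent.H86.CTN.UB2

/-!
Board ctn, row UB1 (helper86): a central element of a `p`-subgroup of `GL_n(q)` is not in the
kernel of an additive character of a subgroup of index at most `q ^ (n - 2)`.
-/

set_option autoImplicit false

namespace Pool.CND

open UB2

namespace UB1

variable {F : Type} [Field F] {n : ℕ}

/-- the pairing `φ (w v)` -/
def pr (φ : Fin n → F) (w : Matrix.GeneralLinearGroup (Fin n) F) (v : Fin n → F) : F :=
  φ ⬝ᵥ (w.1.mulVec v)

theorem card_sub (p f q : ℕ) [Finite F] (hF : Nat.card F = q) (U : Submodule F (Fin n → F))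
    (h : U ≠ ⊥) : q ≤ Nat.card U := by
  haveI : Nontrivial U := Submodule.nontrivial_iff_ne_bot.2 h
  haveI : Finite U := inferInstance
  haveI : Module.Finite F U := Module.Finite.of_finite
  rw [Module.natCard_eq_pow_finrank (K := F) (V := U), hF]
  have h1 : 0 < Module.finrank F U := Module.finrank_pos
  have h2 : 0 < q := by rw [← hF]; exact Nat.card_pos
  exact Nat.le_self_pow h1.ne' q

end UB1

open UB1 in
theorem ub1_thm : S_UB1 := by
  intro p f q n F _ W z hp hf hq hF hn hW hz hz1 hcen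
  classical
  obtain ⟨a, ha⟩ := hW
  haveI : Fact p.Prime := ⟨hp⟩
  haveI : Finite F := Nat.finite_of_card_ne_zero (by rw [hF, hq]; exact (pow_pos hp.pos f).ne')
  haveI : Fintype F := Fintype.ofFinite F
  haveI : Finite (Matrix.GeneralLinearGroup (Fin n) F) := inferInstance
  haveI : NeZero n := ⟨by omega⟩
  haveI : Nonempty (Fin n) := ⟨⟨0, by omega⟩⟩
  have hq1 : 1 < q := by rw [← hF]; exact Finite.one_lt_card
  -- `N = z - 1`
  set N : Matrix (Fin n) (Fin n) F := z.1 - 1 with hN
  have hN0 : N ≠ 0 := by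
    intro h
    apply hz1
    apply Units.ext
    rw [Units.val_one]
    exact sub_eq_zero.1 h
  have hNw : ∀ w ∈ W, N * w.1 = w.1 * N := by
    intro w hw
    have h := congrArg Units.val (hcen w hw)
    rw [Units.val_mul, Units.val_mul] at h
    rw [hN, sub_mul, mul_sub, one_mul, mul_one, h]
  -- the row vectors `u N`
  let M : Submodule F (Fin n → F) := LinearMap.range (Matrix.vecMulLinear N)
  have hMne : M ≠ ⊥ := by
    intro h
    apply hN0
    have h1 : Matrix.vecMulLinear N = 0 := LinearMap.range_eq_bot.1 h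
    apply Matrix.ext_of_single_vecMul
    intro i
    have h2 := congrArg (fun T : (Fin n → F) →ₗ[F] (Fin n → F) => T (Pi.single i 1)) h1
    simp only [Matrix.vecMulLinear_apply, LinearMap.zero_apply] at h2
    rw [h2, Matrix.vecMul_zero]
  haveI : Nontrivial M := Submodule.nontrivial_iff_ne_bot.2 hMne
  have hact : ∀ (w : W) (x : M), Matrix.vecMul (x : Fin n → F) (w⁻¹ : W).1.1 ∈ M := by
    intro w x
    obtain ⟨u, hu⟩ := LinearMap.mem_range.1 x.2
    rw [Matrix.vecMulLinear_apply] at hu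
    refine LinearMap.mem_range.2 ⟨Matrix.vecMul u (w⁻¹ : W).1.1, ?_⟩
    rw [Matrix.vecMulLinear_apply, ← hu, Matrix.vecMul_vecMul, Matrix.vecMul_vecMul,
      hNw _ (w⁻¹ : W).2]
  obtain ⟨lam, hlam0, hlam⟩ := fixp p a hp W ha M (dvdM p f q F hf hq hF M)
    (fun w x => ⟨Matrix.vecMul (x : Fin n → F) (w⁻¹ : W).1.1, hact w x⟩)
    (by intro x; apply Subtype.ext; simp)
    (by
      intro u v x
      apply Subtype.ext
      simp only [mul_inv_rev, Subgroup.coe_mul, Units.val_mul, Matrix.vecMul_vecMul])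
    (by intro u; apply Subtype.ext; simp)
  obtain ⟨φ, hφ⟩ := LinearMap.mem_range.1 lam.2
  rw [Matrix.vecMulLinear_apply] at hφ
  set l : Fin n → F := (lam : Fin n → F) with hl
  have hl0 : l ≠ 0 := by
    intro h
    exact hlam0 (Subtype.ext h)
  -- `l w = l`
  have hlw : ∀ w ∈ W, Matrix.vecMul l w.1 = l := by
    intro w hw
    have h := congrArg Subtype.val (hlam ⟨w⁻¹, W.inv_mem hw⟩)
    simpa using h
  -- `K`
  let K : Submodule F (Fin n → F) :=
    { carrier := {x | ∀ w ∈ W, φ ⬝ᵥ (w.1.mulVec x) = φ ⬝ᵥ x}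
      add_mem' := by
        intro x y hx hy w hw
        rw [Matrix.mulVec_add, dotProduct_add, dotProduct_add, hx w hw, hy w hw]
      zero_mem' := by intro w _; rw [Matrix.mulVec_zero]
      smul_mem' := by
        intro t x hx w hw
        rw [Matrix.mulVec_smul, dotProduct_smul, dotProduct_smul, hx w hw] }
  have hKst : ∀ w ∈ W, ∀ x ∈ K, w.1.mulVec x ∈ K := by
    intro w hw x hx u hu
    rw [Matrix.mulVec_mulVec, ← Units.val_mul, hx (u * w) (W.mul_mem hu hw), hx w hw]
  have hKne : K ≠ ⊥ := by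
    obtain ⟨x, hx0, hx⟩ := fixp p a hp W ha (Fin n → F) (dvdM p f q F hf hq hF _)
      (fun c x => c.1.1.mulVec x) (by intro x; simp) (by intro u v x; simp [Matrix.mulVec_mulVec])
      (by intro u; exact Matrix.mulVec_zero _)
    intro h
    apply hx0
    have : x ∈ K := by
      intro w hw
      rw [show w.1.mulVec x = x from hx ⟨w, hw⟩]
    rw [h] at this
    exact (Submodule.mem_bot F).1 this
  -- `l` on `K`
  have hlN : ∀ x, l ⬝ᵥ x = φ ⬝ᵥ (z.1.mulVec x) - φ ⬝ᵥ x := by
    intro x
    rw [← hφ, ← Matrix.dotProduct_mulVec, hN, Matrix.sub_mulVec, Matrix.one_mulVec,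
      dotProduct_sub]
  have hlK : ∀ x ∈ K, l ⬝ᵥ x = 0 := by
    intro x hx
    rw [hlN, hx z hz, sub_self]
  -- the vector `v`
  obtain ⟨v, hv⟩ : ∃ v, l ⬝ᵥ v ≠ 0 := by
    by_contra hcon
    push Not at hcon
    exact hl0 (dotProduct_eq_zero _ hcon)
  -- `Λ = ker l`
  let Λ : Submodule F (Fin n → F) :=
    { carrier := {x | l ⬝ᵥ x = 0}
      add_mem' := by
        intro x y hx hy
        have hx' : l ⬝ᵥ x = 0 := hx
        have hy' : l ⬝ᵥ y = 0 := hy
        show l ⬝ᵥ (x + y) = 0
        rw [dotProduct_add, hx', hy', add_zero]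
      zero_mem' := by show l ⬝ᵥ 0 = 0; simp
      smul_mem' := by
        intro t x hx
        have hx' : l ⬝ᵥ x = 0 := hx
        show l ⬝ᵥ (t • x) = 0
        rw [dotProduct_smul, hx', smul_zero] }
  have hΛcard : Nat.card Λ * q = q ^ n := by
    have h1 : Nat.card (Λ × F) = Nat.card (Fin n → F) := by
      refine Nat.card_congr (Equiv.ofBijective (fun x : Λ × F => (x.1 : Fin n → F) + x.2 • v) ⟨?_, ?_⟩)
      · rintro ⟨x, s⟩ ⟨y, t⟩ h
        simp only at h
        have hx : l ⬝ᵥ (x : Fin n → F) = 0 := x.2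
        have hy : l ⬝ᵥ (y : Fin n → F) = 0 := y.2
        have h2 := congrArg (fun w => l ⬝ᵥ w) h
        simp only [dotProduct_add, dotProduct_smul, hx, hy, zero_add, smul_eq_mul] at h2
        have h3 : s = t := mul_right_cancel₀ hv h2
        subst h3
        have h4 : (x : Fin n → F) = y := add_right_cancel h
        rw [Subtype.ext h4]
      · intro y
        refine ⟨(⟨y - (l ⬝ᵥ y / (l ⬝ᵥ v)) • v, ?_⟩, l ⬝ᵥ y / (l ⬝ᵥ v)), ?_⟩
        · show l ⬝ᵥ (y - (l ⬝ᵥ y / (l ⬝ᵥ v)) • v) = 0
          rw [dotProduct_sub, dotProduct_smul, smul_eq_mul, div_mul_cancel₀ _ hv, sub_self]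
        · simp
    rw [Nat.card_prod, hF] at h1
    rw [h1, Nat.card_fun, hF, Nat.card_fin]
  -- `H`
  let H : Subgroup (Matrix.GeneralLinearGroup (Fin n) F) :=
    { carrier := {h | h ∈ W ∧ h.1.mulVec v - v ∈ K}
      mul_mem' := by
        rintro x y ⟨hx, hx'⟩ ⟨hy, hy'⟩
        refine ⟨W.mul_mem hx hy, ?_⟩
        have e : (x * y).1.mulVec v - v =
            x.1.mulVec (y.1.mulVec v - v) + (x.1.mulVec v - v) := by
          rw [Units.val_mul, ← Matrix.mulVec_mulVec, Matrix.mulVec_sub]
          abel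
        rw [e]
        exact K.add_mem (hKst x hx _ hy') hx'
      one_mem' := ⟨W.one_mem, by simp⟩
      inv_mem' := by
        rintro x ⟨hx, hx'⟩
        refine ⟨W.inv_mem hx, ?_⟩
        have e : (x⁻¹).1.mulVec v - v = -((x⁻¹).1.mulVec (x.1.mulVec v - v)) := by
          rw [Matrix.mulVec_sub, Matrix.mulVec_mulVec, ← Units.val_mul, inv_mul_cancel,
            Units.val_one, Matrix.one_mulVec]
          abel
        rw [e]
        exact K.neg_mem (hKst _ (W.inv_mem hx) _ hx') }
  have hHW : H ≤ W := fun x hx => hx.1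
  have hzH : z ∈ H := by
    refine ⟨hz, ?_⟩
    intro w hw
    have e : z.1.mulVec v - v = N.mulVec v := by rw [hN, Matrix.sub_mulVec, Matrix.one_mulVec]
    rw [e, Matrix.mulVec_mulVec, ← hNw w hw, ← Matrix.mulVec_mulVec, Matrix.dotProduct_mulVec,
      hφ, Matrix.dotProduct_mulVec φ N v, hφ]
    rw [Matrix.dotProduct_mulVec, hlw w hw]
  -- the index
  have hidx : H.relIndex W * Nat.card K ≤ Nat.card Λ := by
    haveI : Finite (W ⧸ H.subgroupOf W) := inferInstance
    rw [Subgroup.relIndex, Subgroup.index, ← Nat.card_prod]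
    have hmem : ∀ (w : W) (k : K), w.1.1.mulVec v - v + (k : Fin n → F) ∈ Λ := by
      intro w k
      show l ⬝ᵥ (w.1.1.mulVec v - v + (k : Fin n → F)) = 0
      rw [dotProduct_add, dotProduct_sub, hlK _ k.2, Matrix.dotProduct_mulVec, hlw _ w.2, sub_self,
        add_zero]
    refine Nat.card_le_card_of_injective
      (fun x : (W ⧸ H.subgroupOf W) × K => (⟨_, hmem x.1.out x.2⟩ : Λ)) ?_
    rintro ⟨x, k⟩ ⟨y, k'⟩ h
    have h1 := congrArg Subtype.val h
    simp only at h1
    -- `h1 : x v - v + k = y v - v + k'`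
    have hk : x.out.1.1.mulVec v - y.out.1.1.mulVec v ∈ K := by
      have e : x.out.1.1.mulVec v - y.out.1.1.mulVec v = (k' : Fin n → F) - k := by
        have := h1
        have h2 : x.out.1.1.mulVec v = y.out.1.1.mulVec v + (k' : Fin n → F) - k := by
          have h3 : x.out.1.1.mulVec v = (x.out.1.1.mulVec v - v + (k : Fin n → F)) + v - k := by abel
          rw [h3, h1]
          abel
        rw [h2]
        abel
      rw [e]
      exact K.sub_mem k'.2 k.2
    have hxy : x = y := by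
      rw [← Quotient.out_eq x, ← Quotient.out_eq y]
      symm
      apply (QuotientGroup.eq (s := H.subgroupOf W)).2
      rw [Subgroup.mem_subgroupOf]
      refine ⟨W.mul_mem (W.inv_mem y.out.2) x.out.2, ?_⟩
      have e : (((y.out)⁻¹ * x.out : W) : Matrix.GeneralLinearGroup (Fin n) F).1.mulVec v - v =
          ((y.out : W)⁻¹ : W).1.1.mulVec (x.out.1.1.mulVec v - y.out.1.1.mulVec v) := by
        rw [Matrix.mulVec_sub, Matrix.mulVec_mulVec, Matrix.mulVec_mulVec, ← Units.val_mul,
          ← Units.val_mul]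
        have e2 : (((y.out : W)⁻¹ : W) : Matrix.GeneralLinearGroup (Fin n) F) * (y.out : W).1 = 1 := by
          simp
        rw [e2, Units.val_one, Matrix.one_mulVec]
        rfl
      rw [e]
      exact hKst _ ((y.out : W)⁻¹ : W).2 _ hk
    subst hxy
    have hkk : k = k' := by
      apply Subtype.ext
      exact add_left_cancel h1
    rw [hkk]
  have hle : H.relIndex W ≤ q ^ (n - 2) := by
    have h1 : q ≤ Nat.card K := card_sub p f q hF K hKne
    have h2 : (H.relIndex W * q) * q ≤ q ^ n := by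
      calc (H.relIndex W * q) * q ≤ (H.relIndex W * Nat.card K) * q := by gcongr
        _ ≤ Nat.card Λ * q := by gcongr
        _ = q ^ n := hΛcard
    have h3 : q ^ n = (q ^ (n - 2) * q) * q := by
      rw [← pow_succ, ← pow_succ]
      congr 1
      omega
    rw [h3] at h2
    have hq0 : 0 < q := by omega
    exact Nat.le_of_mul_le_mul_right (Nat.le_of_mul_le_mul_right h2 hq0) hq0
  have hmul : H.relIndex W * Nat.card H = Nat.card W := by
    have h := Subgroup.relIndex_mul_relIndex ⊥ H W bot_le hHW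
    rw [Subgroup.relIndex_bot_left, Subgroup.relIndex_bot_left] at h
    rw [mul_comm]
    exact h
  obtain ⟨d, -, hd⟩ : ∃ d ≤ a, H.relIndex W = p ^ d :=
    (Nat.dvd_prime_pow hp).1 ⟨Nat.card H, by rw [hmul, ha]⟩
  refine ⟨H, d, fun h => φ ⬝ᵥ (h.1.mulVec v) - φ ⬝ᵥ v, hHW, hzH, ?_, ?_, ?_, ?_⟩
  · rw [hd, hq, ← pow_mul] at hle
    exact (Nat.pow_le_pow_iff_right hp.one_lt).1 hle
  · rw [← hd, hmul]
  · intro x hx y hy
    have h1 := hy.2 x hx.1
    rw [Matrix.mulVec_sub, dotProduct_sub, dotProduct_sub, Matrix.mulVec_mulVec,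
      ← Units.val_mul] at h1
    simp only
    linear_combination h1
  · simp only
    rw [← hlN]
    exact hv

end Pool.CND
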