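import Pool.Agent.H37.CTN.Stmts

/-!
Board ctn, row UB2 (helper86): the order of an element of order prime to `p` normalising a
nontrivial `p`-subgroup of `GL_n(q)`.
-/

set_option autoImplicit false

namespace Pool.CND

open Polynomial

namespace UB2

/-- a `p`-group acting additively on a finite group of order divisible by `p` has a nonzero fixed
vector -/
theorem fixp (p a : ℕ) (hp : p.Prime) (W : Type) [Group W] [Finite W] (hW : Nat.card W = p ^ a)
    (M : Type) [AddCommGroup M] [Finite M] (hM : p ∣ Nat.card M)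
    (act : W → M → M) (h1 : ∀ x, act 1 x = x) (hm : ∀ u v x, act (u * v) x = act u (act v x))
    (h0 : ∀ u, act u 0 = 0) : ∃ x : M, x ≠ 0 ∧ ∀ u, act u x = x := by
  haveI : Fact p.Prime := ⟨hp⟩
  letI : MulAction W M := { smul := act, one_smul := h1, mul_smul := hm }
  have hP : IsPGroup p W := IsPGroup.of_card hW
  obtain ⟨b, hb, hne⟩ := hP.exists_fixed_point_of_prime_dvd_card_of_fixed_point M hM (a := 0)
    (fun u => h0 u)
  exact ⟨b, hne.symm, fun u => hb u⟩

theorem dvdM (p f q : ℕ) (F : Type) [Field F] [Finite F] (hf : 1 ≤ f) (hq : q = p ^ f)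
    (hF : Nat.card F = q) (M : Type) [AddCommGroup M] [Module F M] [Finite M] [Nontrivial M] :
    p ∣ Nat.card M := by
  haveI : Module.Finite F M := Module.Finite.of_finite
  rw [Module.natCard_eq_pow_finrank (K := F) (V := M), hF, hq, ← pow_mul]
  refine dvd_pow_self p ?_
  have h1 : 0 < Module.finrank F M := Module.finrank_pos
  have h2 : 0 < f * Module.finrank F M := Nat.mul_pos (by omega) h1
  omega

theorem irr (F : Type) [Field F] [Finite F] (q : ℕ) (hF : Nat.card F = q) (f : F[X])
    (hf : Irreducible f) (hX : ¬ f ∣ X) : f ∣ X ^ (q ^ f.natDegree - 1) - 1 := by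
  haveI : Fact (Irreducible f) := ⟨hf⟩
  have hfin : Module.finrank F (AdjoinRoot f) = f.natDegree := by
    rw [(AdjoinRoot.powerBasis hf.ne_zero).finrank, AdjoinRoot.powerBasis_dim]
  haveI : Module.Finite F (AdjoinRoot f) := (AdjoinRoot.powerBasis hf.ne_zero).finite
  haveI : Finite (AdjoinRoot f) := Module.finite_of_finite F
  haveI : Fintype (AdjoinRoot f) := Fintype.ofFinite _
  have hc : Fintype.card (AdjoinRoot f) = q ^ f.natDegree := by
    rw [← Nat.card_eq_fintype_card, Module.natCard_eq_pow_finrank (K := F), hF, hfin]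
  have h0 : AdjoinRoot.root f ≠ 0 := by
    intro h
    apply hX
    rw [← AdjoinRoot.mk_eq_zero, AdjoinRoot.mk_X]
    exact h
  have h1 := FiniteField.pow_card_sub_one_eq_one (AdjoinRoot.root f) h0
  rw [hc] at h1
  rw [← AdjoinRoot.mk_eq_zero, map_sub, map_pow, AdjoinRoot.mk_X, h1, map_one, sub_self]

theorem prodDvd (F : Type) [Field F] (s : Multiset F[X]) (y : F[X]) (h : ∀ f ∈ s, f ∣ y) :
    s.prod ∣ y ^ Multiset.card s := by
  induction s using Multiset.induction_on with
  | empty => simp
  | cons a s ih =>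
    rw [Multiset.prod_cons, Multiset.card_cons, pow_succ, mul_comm]
    exact mul_dvd_mul (ih fun f hf => h f (Multiset.mem_cons_of_mem hf))
      (h a (Multiset.mem_cons_self a s))

theorem sqdvd (F : Type) [Field F] (μ y : F[X]) (hμ : μ ≠ 0) (hs : Squarefree μ)
    (h : ∀ f, Irreducible f → f ∣ μ → f ∣ y) : μ ∣ y := by
  classical
  have h1 := UniqueFactorizationMonoid.prod_normalizedFactors hμ
  have h2 := prodDvd F (UniqueFactorizationMonoid.normalizedFactors μ) y (fun f hf =>
    h f (UniqueFactorizationMonoid.irreducible_of_normalized_factor f hf)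
      (UniqueFactorizationMonoid.dvd_of_mem_normalizedFactors hf))
  exact hs.isRadical _ _ (h1.symm.dvd.trans h2)

theorem aevalRes (F V : Type) [Field F] [AddCommGroup V] [Module F V] (φ : V →ₗ[F] V)
    (U : Submodule F V) (hU : ∀ x ∈ U, φ x ∈ U) (P : F[X]) (x : U) :
    ((aeval (φ.restrict hU) P x : U) : V) = aeval φ P (x : V) := by
  induction P using Polynomial.induction_on' with
  | add a b ha hb => simp [ha, hb]
  | monomial k c =>
    have hk : ∀ k : ℕ, (((φ.restrict hU) ^ k) x : V) = (φ ^ k) (x : V) := by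
      intro k
      induction k with
      | zero => simp
      | succ k ih => rw [pow_succ', pow_succ', Module.End.mul_apply, Module.End.mul_apply,
          LinearMap.restrict_coe_apply, ih]
    simp [aeval_monomial, hk]

end UB2

open UB2 in
theorem ub2_thm : S_UB2 := by
  intro p f q n F _ C g hp hf hq hF hC hCne hnorm hord
  classical
  obtain ⟨a, ha⟩ := hC
  haveI : Fact p.Prime := ⟨hp⟩
  haveI : Finite F := Nat.finite_of_card_ne_zero (by rw [hF, hq]; exact (pow_pos hp.pos f).ne')
  haveI : Fintype F := Fintype.ofFinite F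
  haveI : CharP F p := charP_of_card_eq_prime_pow (f := f) (by
    rw [← Nat.card_eq_fintype_card, hF, hq])
  haveI : Finite (Matrix.GeneralLinearGroup (Fin n) F) := inferInstance
  -- `n ≥ 1`
  have hn : 1 ≤ n := by
    by_contra hcon
    have hn0 : n = 0 := by omega
    subst hn0
    apply hCne
    rw [Subgroup.eq_bot_iff_forall]
    intro x _
    exact Units.ext (Subsingleton.elim _ _)
  haveI : NeZero n := ⟨by omega⟩
  haveI : Nonempty (Fin n) := ⟨⟨0, by omega⟩⟩
  -- the fixed vectors
  let U : Submodule F (Fin n → F) :=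
    { carrier := {x | ∀ c ∈ C, c.1.mulVec x = x}
      add_mem' := by
        intro x y hx hy c hc
        rw [Matrix.mulVec_add, hx c hc, hy c hc]
      zero_mem' := by intro c _; exact Matrix.mulVec_zero _
      smul_mem' := by
        intro t x hx c hc
        rw [Matrix.mulVec_smul, hx c hc] }
  have hUne : ∃ x ∈ U, x ≠ 0 := by
    obtain ⟨x, hx0, hx⟩ := fixp p a hp C ha (Fin n → F) (dvdM p f q F hf hq hF _)
      (fun c x => c.1.1.mulVec x) (by intro x; simp) (by intro u v x; simp [Matrix.mulVec_mulVec])
      (by intro u; exact Matrix.mulVec_zero _)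
    exact ⟨x, fun c hc => hx ⟨c, hc⟩, hx0⟩
  have hUtop : U ≠ ⊤ := by
    intro h
    apply hCne
    rw [Subgroup.eq_bot_iff_forall]
    intro c hc
    apply Units.ext
    apply Matrix.toLin'.injective
    apply LinearMap.ext
    intro x
    have hx : x ∈ U := by rw [h]; exact Submodule.mem_top
    rw [Matrix.toLin'_apply, hx c hc]
    simp
  -- `g` normalises `C`
  have hsurj : ∀ c ∈ C, ∃ c' ∈ C, g * c' * g⁻¹ = c := by
    intro c hc
    let T : C → C := fun x => ⟨g * x * g⁻¹, hnorm x x.2⟩
    have hT : Function.Injective T := by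
      intro x y hxy
      have h := congrArg Subtype.val hxy
      simp only [T] at h
      exact Subtype.ext (by simpa using h)
    obtain ⟨c', hc'⟩ := (Finite.injective_iff_surjective.1 hT) ⟨c, hc⟩
    exact ⟨c', c'.2, congrArg Subtype.val hc'⟩
  set A : Matrix (Fin n) (Fin n) F := g.1 with hA
  set φ : (Fin n → F) →ₗ[F] (Fin n → F) := Matrix.toLin' A with hφ
  have hU : ∀ x ∈ U, φ x ∈ U := by
    intro x hx c hc
    obtain ⟨c', hc', e⟩ := hsurj c hc
    have e2 : c * g = g * c' := by rw [← e]; group
    have e3 : c.1 * g.1 = g.1 * c'.1 := congrArg Units.val e2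
    rw [hφ, Matrix.toLin'_apply, Matrix.mulVec_mulVec, hA, e3, ← Matrix.mulVec_mulVec, hx c' hc']
  -- the minimal polynomial
  set N := orderOf g with hN
  have hN0 : N ≠ 0 := (orderOf_pos g).ne'
  have hAN : A ^ N = 1 := by
    have := congrArg Units.val (pow_orderOf_eq_one g)
    rw [Units.val_pow_eq_pow_val, Units.val_one] at this
    exact this
  set μ := minpoly F A with hμ
  have hint : IsIntegral F A := Algebra.IsIntegral.isIntegral A
  have hμ0 : μ ≠ 0 := minpoly.ne_zero hint
  have hμN : μ ∣ X ^ N - 1 := minpoly.dvd F A (by simp [hAN])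
  have hNF : (N : F) ≠ 0 := by
    rw [Ne, CharP.cast_eq_zero_iff F p N]
    exact hord
  have hsq : Squarefree μ := (X_pow_sub_one_separable_iff.2 hNF).squarefree.squarefree_of_dvd hμN
  have hdeg : μ.natDegree ≤ n := by
    have h := natDegree_le_of_dvd (Matrix.minpoly_dvd_charpoly A) (Matrix.charpoly_monic A).ne_zero
    rwa [Matrix.charpoly_natDegree_eq_dim, Fintype.card_fin] at h
  -- the irreducible factors
  have hirr : ∀ f : F[X], Irreducible f → f ∣ μ → 1 ≤ f.natDegree ∧ f.natDegree ≤ n - 1 ∧
      ¬ f ∣ X := by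
    intro f hf hfμ
    refine ⟨hf.natDegree_pos, ?_, ?_⟩
    · by_contra hcon
      have hfn : f.natDegree = n := by
        have := (natDegree_le_of_dvd hfμ hμ0).trans hdeg
        omega
      -- `f` and `μ` are associated
      obtain ⟨h, hh⟩ := hfμ
      have hh0 : h ≠ 0 := by rintro rfl; rw [mul_zero] at hh; exact hμ0 hh
      have hfA : aeval A f = 0 := by
        have hd : h.natDegree = 0 := by
          have := natDegree_mul hf.ne_zero hh0
          rw [← hh] at this
          omega
        obtain ⟨c, hc⟩ := natDegree_eq_zero.1 hd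
        have hc0 : c ≠ 0 := by rintro rfl; rw [C_0] at hc; exact hh0 hc.symm
        have h1 : aeval A μ = 0 := minpoly.aeval F A
        rw [hh, ← hc, map_mul, aeval_C, ← Algebra.commutes, ← Algebra.smul_def] at h1
        exact (smul_eq_zero.1 h1).resolve_left hc0
      have hfφ : aeval φ f = 0 := by
        have h := Polynomial.aeval_algHom_apply
          (AlgEquiv.toAlgHom (Matrix.toLinAlgEquiv' (R := F) (n := Fin n))) A f
        rw [hfA, map_zero] at h
        exact h
      obtain ⟨x, hxU, hx0⟩ := hUne
      set ψ := φ.restrict hU with hψ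
      set P := minpoly F ψ with hP
      have hPint : IsIntegral F ψ := Algebra.IsIntegral.isIntegral ψ
      have hP0 : P ≠ 0 := minpoly.ne_zero hPint
      have hPd : P.natDegree < n := by
        have h1 := natDegree_le_of_dvd (LinearMap.minpoly_dvd_charpoly ψ)
          (LinearMap.charpoly_monic ψ).ne_zero
        rw [LinearMap.charpoly_natDegree] at h1
        have h2 := Submodule.finrank_lt hUtop
        rw [Module.finrank_fin_fun] at h2
        exact h1.trans_lt h2
      have hPx : aeval φ P x = 0 := by
        have h1 := aevalRes F _ φ U hU P ⟨x, hxU⟩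
        have h2 : aeval (φ.restrict hU) P = 0 := minpoly.aeval F ψ
        rw [h2] at h1
        exact h1.symm
      have hcop : IsCoprime f P := by
        rw [Irreducible.coprime_iff_not_dvd hf]
        intro hdv
        have := natDegree_le_of_dvd hdv hP0
        omega
      obtain ⟨u, v, huv⟩ := hcop
      apply hx0
      have h1 : aeval φ (u * f + v * P) x = x := by rw [huv]; simp
      rw [map_add, map_mul, map_mul, hfφ, mul_zero, zero_add, Module.End.mul_apply, hPx,
        map_zero] at h1
      exact h1.symm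
    · intro hX
      apply hf.not_isUnit
      have h1 : f ∣ X ^ N - 1 := hfμ.trans hμN
      have h2 : f ∣ X ^ N := hX.trans (dvd_pow_self X hN0)
      have h3 : f ∣ 1 := by
        have := dvd_sub h2 h1
        simpa using this
      exact isUnit_of_dvd_one h3
  set L := (Finset.Icc 1 (n - 1)).lcm (fun m => q ^ m - 1) with hL
  have hμL : μ ∣ X ^ L - 1 := by
    refine sqdvd F μ _ hμ0 hsq ?_
    intro f hf hfμ
    obtain ⟨h1, h2, h3⟩ := hirr f hf hfμ
    refine (irr F q hF f hf h3).trans ?_
    have h4 : q ^ f.natDegree - 1 ∣ L :=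
      Finset.dvd_lcm (f := fun m => q ^ m - 1) (Finset.mem_Icc.2 ⟨h1, h2⟩)
    obtain ⟨k, hk⟩ := h4
    rw [hk, pow_mul]
    have := sub_dvd_pow_sub_pow (X ^ (q ^ f.natDegree - 1) : F[X]) 1 k
    rwa [one_pow] at this
  have hAL : A ^ L = 1 := by
    have h := (minpoly.dvd_iff).1 hμL
    rw [map_sub, map_pow, aeval_X, map_one, sub_eq_zero] at h
    exact h
  apply Units.ext
  rw [Units.val_pow_eq_pow_val, Units.val_one]
  exact hAL

end Pool.CND
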